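import Pool.Agent.Lib.MP_a17b09_nt.MRSG.Fac68

/-!
Indefinite forms: classes of forms of discriminant `D > 0`, not a square; similitudes of all split
primes; automorphs which are `1` modulo `K` (helper68).
`Form.D` is minus the discriminant, so the condition is `Q.D = -D`.
-/

set_option autoImplicit false

open Finset

namespace Pool.Agent.Lib.MP_a17b09_nt.CHI

open CH MRSG

/-- forms of discriminant `D` -/
def FI (D : ℕ) : Type := {Q : Form // Q.D = -(D : ℤ)}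

instance fiSetoid (D : ℕ) : Setoid (FI D) where
  r Q Q' := Eqv Q.1 Q'.1
  iseqv := ⟨fun Q => Eqv.refl Q.1, fun h => h.symm, fun h h' => h.trans h'⟩

/-- the classes -/
def ClI (D : ℕ) : Type := Quotient (fiSetoid D)

/-- the representative of a class -/
noncomputable def repI {D : ℕ} (i : ClI D) : Form := (Quotient.out i).1

theorem repI_D {D : ℕ} (i : ClI D) : (repI i).D = -(D : ℤ) := (Quotient.out i).2

theorem repI_inj {D : ℕ} {i j : ClI D} (h : Eqv (repI i) (repI j)) : i = j := by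
  have h1 : (Quotient.out i) ≈ (Quotient.out j) := h
  exact (Quotient.out_eq i).symm.trans ((Quotient.sound h1).trans (Quotient.out_eq j))

theorem exists_clI {D : ℕ} {Q : Form} (hD : Q.D = -(D : ℤ)) : ∃ i : ClI D, Eqv Q (repI i) := by
  refine ⟨Quotient.mk (fiSetoid D) ⟨Q, hD⟩, ?_⟩
  have h1 := Quotient.mk_out (s := fiSetoid D) ⟨Q, hD⟩
  exact Eqv.symm h1

theorem Eqv.D_eq {Q Q' : Form} (h : Eqv Q Q') : Q'.D = Q.D := by
  obtain ⟨γ, h1, rfl⟩ := h
  rw [Form.comp_D, h1]; ring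

/-- no form of non square discriminant represents `0` -/
theorem q_ne {D : ℕ} (hns : ¬ IsSquare D) {Q : Form} (hD : Q.D = -(D : ℤ)) {v : V} (hv : v ≠ 0) :
    Q.q v ≠ 0 := by
  intro h0
  have key : (D : ℤ) * v.1 ^ 2 = (Q.b * v.1 + 2 * Q.c * v.2) ^ 2 ∧
      (D : ℤ) * v.2 ^ 2 = (2 * Q.a * v.1 + Q.b * v.2) ^ 2 := by
    unfold Form.D at hD
    unfold Form.q at h0
    constructor
    · linear_combination (v.1 ^ 2) * hD - (4 * Q.c) * h0
    · linear_combination (v.2 ^ 2) * hD - (4 * Q.a) * h0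
  have hsq : ∀ x y : ℤ, x ≠ 0 → (D : ℤ) * x ^ 2 = y ^ 2 → False := by
    intro x y hx h
    have h1 : x ^ 2 ∣ y ^ 2 := Dvd.intro_left _ h
    rw [Int.pow_dvd_pow_iff (by norm_num)] at h1
    obtain ⟨z, rfl⟩ := h1
    have h2 : (D : ℤ) = z ^ 2 := by
      have h3 : x ^ 2 * (D : ℤ) = x ^ 2 * z ^ 2 := by rw [mul_comm, h]; ring
      exact mul_left_cancel₀ (pow_ne_zero 2 hx) h3
    apply hns
    refine ⟨z.natAbs, ?_⟩
    have h4 : (D : ℤ) = ((z.natAbs * z.natAbs : ℕ) : ℤ) := by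
      push_cast
      rw [h2, sq, abs_mul_abs_self]
    exact_mod_cast h4
  apply hv
  by_cases h1 : v.1 = 0
  · by_cases h2 : v.2 = 0
    · exact Prod.ext h1 h2
    · exact absurd key.2 (fun h => hsq _ _ h2 h)
  · exact absurd key.1 (fun h => hsq _ _ h1 h)

theorem a_ne {D : ℕ} (hns : ¬ IsSquare D) {Q : Form} (hD : Q.D = -(D : ℤ)) : Q.a ≠ 0 := by
  have h := q_ne hns hD (v := (1, 0)) (by simp)
  simpa [Form.q] using h

theorem c_ne {D : ℕ} (hns : ¬ IsSquare D) {Q : Form} (hD : Q.D = -(D : ℤ)) : Q.c ≠ 0 := by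
  have h := q_ne hns hD (v := (0, 1)) (by simp)
  simpa [Form.q] using h

/-- every form is equivalent to one with `|b| ≤ |a| ≤ |c|` -/
theorem exists_reducedI {D : ℕ} (hns : ¬ IsSquare D) (n : ℕ) : ∀ Q : Form, Q.D = -(D : ℤ) →
    Q.a.natAbs = n → ∃ Q', Eqv Q Q' ∧ |Q'.b| ≤ |Q'.a| ∧ |Q'.a| ≤ |Q'.c| := by
  induction n using Nat.strong_induction_on with
  | _ n ih =>
    intro Q hQ hn
    have ha := a_ne hns hQ
    -- translation
    let k : ℤ := -Int.sign Q.a * ((Q.b + |Q.a|) / (2 * |Q.a|))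
    let T : Mat := ⟨1, k, 0, 1⟩
    have hT : T.det = 1 := by simp [T, Mat.det]
    have hTa : (Q.comp T).a = Q.a := by simp [T, Form.comp, Form.q]
    have hTb : (Q.comp T).b = Q.b + 2 * Q.a * k := by simp [T, Form.comp, Form.B]; ring
    have hapos : 0 < |Q.a| := abs_pos.2 ha
    have hb : |(Q.comp T).b| ≤ |(Q.comp T).a| := by
      rw [hTa, hTb, abs_le]
      have h1 := Int.emod_add_mul_ediv (Q.b + |Q.a|) (2 * |Q.a|)
      have h2 := Int.emod_nonneg (Q.b + |Q.a|) (b := 2 * |Q.a|) (by positivity)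
      have h3 := Int.emod_lt_of_pos (Q.b + |Q.a|) (b := 2 * |Q.a|) (by positivity)
      have h4 : 2 * Q.a * k = -(2 * |Q.a| * ((Q.b + |Q.a|) / (2 * |Q.a|))) := by
        simp only [k]
        have h5 : Q.a * Int.sign Q.a = |Q.a| := by
          rw [mul_comm]; exact Int.sign_mul_self_eq_abs Q.a
        linear_combination (-2 * ((Q.b + |Q.a|) / (2 * |Q.a|))) * h5
      rw [h4]
      constructor <;> linarith
    have hE : Eqv Q (Q.comp T) := ⟨T, hT, rfl⟩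
    have hD1 : (Q.comp T).D = -(D : ℤ) := by rw [Eqv.D_eq hE, hQ]
    by_cases hc : |(Q.comp T).a| ≤ |(Q.comp T).c|
    · exact ⟨_, hE, hb, hc⟩
    · push Not at hc
      let W : Mat := ⟨0, -1, 1, 0⟩
      have hW : W.det = 1 := by simp [W, Mat.det]
      have hWa : ((Q.comp T).comp W).a = (Q.comp T).c := by
        simp [W, Form.comp, Form.q]
      have hE2 : Eqv (Q.comp T) ((Q.comp T).comp W) := ⟨W, hW, rfl⟩
      obtain ⟨Q', h1, h2, h3⟩ := ih ((Q.comp T).comp W).a.natAbs (by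
        rw [← hn, ← hTa, hWa]
        rw [Int.abs_eq_natAbs, Int.abs_eq_natAbs] at hc
        exact_mod_cast hc) ((Q.comp T).comp W) (by rw [Eqv.D_eq hE2, hD1]) rfl
      exact ⟨Q', hE.trans (hE2.trans h1), h2, h3⟩

theorem reduced_bd {D : ℕ} (hns : ¬ IsSquare D) {Q : Form} (hD : Q.D = -(D : ℤ))
    (h1 : |Q.b| ≤ |Q.a|) (h2 : |Q.a| ≤ |Q.c|) : |Q.a| ≤ D ∧ |Q.b| ≤ D ∧ |Q.c| ≤ D := by
  have ha : 0 < |Q.a| := abs_pos.2 (a_ne hns hD)
  have hb0 : 0 ≤ |Q.b| := abs_nonneg _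
  have hD' : 4 * Q.a * Q.c - Q.b ^ 2 = -(D : ℤ) := hD
  have hb2 : Q.b ^ 2 ≤ |Q.a| ^ 2 := by
    rw [← sq_abs Q.b]; exact pow_le_pow_left₀ hb0 h1 2
  have hac : |Q.a| * |Q.c| = |Q.a * Q.c| := (abs_mul _ _).symm
  have haa : |Q.a| ^ 2 ≤ |Q.a| * |Q.c| := by nlinarith
  have hD0 : (0 : ℤ) ≤ D := Int.natCast_nonneg D
  have hneg : Q.a * Q.c < 0 := by
    by_contra hcon
    push Not at hcon
    rw [abs_of_nonneg hcon] at hac
    nlinarith
  rw [abs_of_neg hneg] at hac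
  have h3 : 4 * (|Q.a| * |Q.c|) ≤ D := by
    rw [hac]
    nlinarith [sq_nonneg Q.b]
  have hc : 0 < |Q.c| := lt_of_lt_of_le ha h2
  have h4 : |Q.a| ≤ |Q.a| * |Q.c| := by nlinarith
  have h5 : |Q.c| ≤ |Q.a| * |Q.c| := by nlinarith
  refine ⟨by nlinarith, by nlinarith, by nlinarith⟩

theorem clI_finite {D : ℕ} (hns : ¬ IsSquare D) : Finite (ClI D) := by
  let I := Finset.Icc (-(D : ℤ)) D
  let S : Type := {x : I × I × I // (Form.mk x.1 x.2.1 x.2.2).D = -(D : ℤ)}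
  let f : S → ClI D := fun x => Quotient.mk (fiSetoid D) ⟨_, x.2⟩
  have hf : Function.Surjective f := by
    intro i
    obtain ⟨Q', hE, hb, hc⟩ := exists_reducedI hns _ (repI i) (repI_D i) rfl
    have hD : Q'.D = -(D : ℤ) := by rw [Eqv.D_eq hE, repI_D]
    obtain ⟨h1, h2, h3⟩ := reduced_bd hns hD hb hc
    refine ⟨⟨(⟨Q'.a, Finset.mem_Icc.2 (abs_le.1 h1)⟩, ⟨Q'.b, Finset.mem_Icc.2 (abs_le.1 h2)⟩,
      ⟨Q'.c, Finset.mem_Icc.2 (abs_le.1 h3)⟩), hD⟩, ?_⟩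
    have h6 : i = Quotient.mk (fiSetoid D) (Quotient.out i) := (Quotient.out_eq i).symm
    rw [h6]
    apply Quotient.sound
    exact Eqv.symm hE
  have : Finite S := Subtype.finite
  exact Finite.of_surjective f hf

/-! ### Split primes -/

theorem neg_nd' {p r : ℤ} (hr : ¬ p ∣ 2 * r) : ¬ p ∣ 2 * (-r) := by
  intro h
  apply hr
  have : 2 * (-r) = -(2 * r) := by ring
  rw [this] at h
  exact (dvd_neg).1 h

/-- `p` does not divide `2D` and `D` is a square modulo `p` -/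
def Split (D : ℕ) (p : ℕ) : Prop := p.Prime ∧ ∃ r : ℤ, ¬ (p : ℤ) ∣ 2 * r ∧ (p : ℤ) ∣ r ^ 2 - D

theorem Split.of_not_dvd {D p : ℕ} (hp : p.Prime) (h : ¬ p ∣ 2 * D) {r : ℤ}
    (hr : (p : ℤ) ∣ r ^ 2 - D) : Split D p := by
  refine ⟨hp, r, fun h1 => ?_, hr⟩
  have hpp : Prime (p : ℤ) := Nat.prime_iff_prime_int.1 hp
  rcases hpp.dvd_or_dvd h1 with h2 | h2
  · apply h
    have h3 : p ∣ 2 := by exact_mod_cast h2
    exact h3.mul_right D
  · apply h
    have h3 : (p : ℤ) ∣ D := by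
      have := dvd_sub (Dvd.dvd.mul_right h2 r) hr
      have h4 : r * r - (r ^ 2 - (D : ℤ)) = D := by ring
      rwa [h4] at this
    have h5 : p ∣ D := by exact_mod_cast h3
    exact h5.mul_left 2

open Classical in
/-- the root -/
noncomputable def rtI (D p : ℕ) : ℤ := if h : Split D p then h.2.choose else 0

theorem rtI_spec {D p : ℕ} (h : Split D p) :
    ¬ (p : ℤ) ∣ 2 * rtI D p ∧ (p : ℤ) ∣ (rtI D p) ^ 2 - D := by
  unfold rtI
  rw [dif_pos h]
  exact h.2.choose_spec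

/-- signed root -/
noncomputable def rgI (D : ℕ) (P : ℕ × Bool) : ℤ := if P.2 then rtI D P.1 else -rtI D P.1

theorem rgI_spec {D : ℕ} {P : ℕ × Bool} (h : Split D P.1) :
    ¬ (P.1 : ℤ) ∣ 2 * rgI D P ∧ (P.1 : ℤ) ∣ (rgI D P) ^ 2 + -(D : ℤ) := by
  obtain ⟨h1, h2⟩ := rtI_spec h
  obtain ⟨p, b⟩ := P
  cases b with
  | true => exact ⟨h1, h2⟩
  | false =>
    refine ⟨neg_nd' h1, ?_⟩
    have : (rgI D (p, false)) ^ 2 + -(D : ℤ) = (rtI D p) ^ 2 - D := by
      unfold rgI; simp; ring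
    rw [this]; exact h2

/-- the relation on classes -/
def CRelI (p r : ℤ) {D : ℕ} (i j : ClI D) : Prop := ∃ M, Rel p r (repI i) (repI j) M

theorem CRelI.exists' {p r : ℤ} (hp : Prime p) (hr : ¬ p ∣ 2 * r) {D : ℕ}
    (hD : p ∣ r ^ 2 + -(D : ℤ)) (i : ClI D) : ∃ j : ClI D, CRelI p r i j := by
  obtain ⟨Q', M, h1, h2, -⟩ := exists_rel hp hr (repI i) (by rw [repI_D]; exact hD)
  obtain ⟨j, γ, hγ, hj⟩ := exists_clI (D := D) (Q := Q') (by rw [h2, repI_D])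
  refine ⟨j, M.mul γ, ?_⟩
  rw [hj]
  exact h1.right hγ

theorem CRelI.uniq {p r : ℤ} (hp : Prime p) (hr : ¬ p ∣ 2 * r) {D : ℕ} {i j j' : ClI D}
    (h : CRelI p r i j) (h' : CRelI p r i j') : j = j' := by
  obtain ⟨M, hM⟩ := h
  obtain ⟨M', hM'⟩ := h'
  obtain ⟨N, hN, -, hN'⟩ := hM.uniq hp hr hM'
  exact repI_inj ⟨N, hN, hN'⟩

theorem CRelI.inv {p r : ℤ} (hp : Prime p) {D : ℕ} {i j : ClI D}
    (h : CRelI p r i j) : CRelI p (-r) j i := by
  obtain ⟨M, hM⟩ := h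
  exact ⟨_, hM.inv hp.ne_zero⟩

/-- the permutation and the matrices -/
theorem exists_permI {D : ℕ} (hns : ¬ IsSquare D) {p : ℕ} (h : Split D p) :
    ∃ (s : Equiv.Perm (ClI D)) (M : ClI D → Mat),
      ∀ i, Rel p (rtI D p) (repI i) (repI (s i)) (M i) := by
  obtain ⟨h2, h1⟩ := rtI_spec h
  have hpp : Prime (p : ℤ) := Nat.prime_iff_prime_int.1 h.1
  have hex := fun i : ClI D => CRelI.exists' hpp h2 (by rw [← sub_eq_add_neg]; exact h1) i
  choose f hf using hex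
  have hinj : Function.Injective f := by
    intro i i' hii
    have e1 := (hf i).inv hpp
    have e2 := (hf i').inv hpp
    rw [← hii] at e2
    exact e1.uniq hpp (neg_nd' h2) e2
  have : Finite (ClI D) := clI_finite hns
  have hbij : Function.Bijective f := Finite.injective_iff_bijective.1 hinj
  choose M hM using hf
  exact ⟨Equiv.ofBijective f hbij, M, hM⟩

open Classical in
/-- the permutation belonging to `p` -/
noncomputable def sI (D p : ℕ) : Equiv.Perm (ClI D) :=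
  if h : ¬ IsSquare D ∧ Split D p then (exists_permI h.1 h.2).choose else Equiv.refl _

open Classical in
/-- the matrices belonging to `p` -/
noncomputable def mI (D p : ℕ) : ClI D → Mat :=
  if h : ¬ IsSquare D ∧ Split D p then (exists_permI h.1 h.2).choose_spec.choose
  else fun _ => Mat.one

theorem sI_rel {D p : ℕ} (hns : ¬ IsSquare D) (h : Split D p) (i : ClI D) :
    Rel p (rtI D p) (repI i) (repI (sI D p i)) (mI D p i) := by
  have hh : ¬ IsSquare D ∧ Split D p := ⟨hns, h⟩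
  have := (exists_permI hh.1 hh.2).choose_spec.choose_spec i
  unfold sI mI
  rw [dif_pos hh, dif_pos hh]
  exact this

/-- permutation of the classes for `(p, ±)` -/
noncomputable def sgI (D : ℕ) (P : ℕ × Bool) : Equiv.Perm (ClI D) :=
  if P.2 then sI D P.1 else (sI D P.1).symm

/-- matrices for `(p, ±)` -/
noncomputable def MgI (D : ℕ) (P : ℕ × Bool) (i : ClI D) : Mat :=
  if P.2 then mI D P.1 i else (mI D P.1 ((sI D P.1).symm i)).adj

theorem relI_g {D : ℕ} (hns : ¬ IsSquare D) {P : ℕ × Bool} (h : Split D P.1) (i : ClI D) :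
    Rel P.1 (rgI D P) (repI i) (repI (sgI D P i)) (MgI D P i) := by
  have h2 := sI_rel hns h
  obtain ⟨p, b⟩ := P
  cases b with
  | true => exact h2 i
  | false =>
    have h3 := (h2 ((sI D p).symm i)).inv (by exact_mod_cast h.1.ne_zero)
    rw [Equiv.apply_symm_apply] at h3
    exact h3

/-! ### Automorphs -/

/-- multiplication by `X + Z √D` commutes with every direct similitude -/
theorem mX_comm {Q Q' : Form} {M : Mat} {n : ℤ} (hn : n ≠ 0) (hdet : M.det = n)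
    (hsim : ∀ u, Q.q (M.app u) = n * Q'.q u) (X Z : ℤ) :
    (mX Q X Z).mul M = M.mul (mX Q' X Z) := by
  have h1 := hsim (1, 0)
  have h2 := hsim (0, 1)
  have h3 := hsim (1, 1)
  unfold Mat.det at hdet
  simp only [Form.q, Mat.app, mul_one, mul_zero, add_zero, zero_add] at h1 h2 h3
  have e1 : n * Q'.a = Q.a * M.a ^ 2 + Q.b * M.a * M.c + Q.c * M.c ^ 2 := by linarith
  have e2 : n * Q'.c = Q.a * M.b ^ 2 + Q.b * M.b * M.d + Q.c * M.d ^ 2 := by linarith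
  have e3 : n * Q'.b = 2 * Q.a * M.a * M.b + Q.b * (M.a * M.d + M.b * M.c) +
      2 * Q.c * M.c * M.d := by linarith
  apply Mat.ext <;> apply mul_left_cancel₀ hn <;> simp only [mX, Mat.mul]
  · linear_combination (M.a * Z) * e3 - (2 * M.b * Z) * e1 +
      (Z * (Q.b * M.a + 2 * Q.c * M.c)) * hdet
  · linear_combination (2 * M.a * Z) * e2 - (M.b * Z) * e3 +
      (Z * (Q.b * M.b + 2 * Q.c * M.d)) * hdet
  · linear_combination (M.c * Z) * e3 - (2 * M.d * Z) * e1 -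
      (Z * (2 * Q.a * M.a + Q.b * M.c)) * hdet
  · linear_combination (2 * M.c * Z) * e2 - (M.d * Z) * e3 -
      (Z * (2 * Q.a * M.b + Q.b * M.d)) * hdet

/-- a unit which is `1` modulo `K` -/
theorem exists_unit {D : ℕ} (hns : ¬ IsSquare D) {K : ℕ} (hK : 0 < K) :
    ∃ X Z : ℤ, 1 < X ∧ 0 < Z ∧ X ^ 2 - D * Z ^ 2 = 1 ∧ (K : ℤ) ∣ X - 1 ∧ (K : ℤ) ∣ Z := by
  have hD0 : (0 : ℤ) < (D : ℤ) * K ^ 2 := by
    have h1 : 0 < D := Nat.pos_of_ne_zero (by rintro rfl; exact hns ⟨0, rfl⟩)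
    positivity
  have hns' : ¬ IsSquare ((D : ℤ) * K ^ 2) := by
    rintro ⟨y, hy⟩
    apply hns
    have h1 : (K : ℤ) ^ 2 ∣ y ^ 2 := Dvd.intro_left (D : ℤ) (by rw [hy]; ring)
    rw [Int.pow_dvd_pow_iff (by norm_num)] at h1
    obtain ⟨z, rfl⟩ := h1
    have hK0 : (K : ℤ) ≠ 0 := by exact_mod_cast hK.ne'
    have h2 : (D : ℤ) = z ^ 2 := by
      have h3 : (K : ℤ) ^ 2 * (D : ℤ) = (K : ℤ) ^ 2 * z ^ 2 := by rw [mul_comm, hy]; ring
      exact mul_left_cancel₀ (pow_ne_zero 2 hK0) h3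
    refine ⟨z.natAbs, ?_⟩
    have h4 : (D : ℤ) = ((z.natAbs * z.natAbs : ℕ) : ℤ) := by
      push_cast
      rw [h2, sq, abs_mul_abs_self]
    exact_mod_cast h4
  obtain ⟨x, y, hxy, hy0⟩ := Pell.exists_of_not_isSquare hD0 hns'
  -- square it
  have hy2 : 0 < y ^ 2 := by positivity
  have hx0 : x ≠ 0 := by
    rintro rfl
    nlinarith
  refine ⟨2 * x ^ 2 - 1, 2 * |x| * |y| * K, ?_, ?_, ?_, ?_, ?_⟩
  · have h1 : x ^ 2 = 1 + (D : ℤ) * K ^ 2 * y ^ 2 := by linarith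
    nlinarith
  · have := abs_pos.2 hx0
    have := abs_pos.2 hy0
    positivity
  · have h1 : x ^ 2 = 1 + (D : ℤ) * K ^ 2 * y ^ 2 := by linarith
    have h2 : (2 * |x| * |y| * K) ^ 2 = 4 * x ^ 2 * y ^ 2 * K ^ 2 := by
      rw [mul_pow, mul_pow, mul_pow, sq_abs, sq_abs]; ring
    rw [h2]
    have h3 : (D : ℤ) * K ^ 2 * y ^ 2 = x ^ 2 - 1 := by linarith
    linear_combination (-4 * x ^ 2) * h3
  · refine ⟨2 * D * K * y ^ 2, ?_⟩
    have h1 : x ^ 2 = 1 + (D : ℤ) * K ^ 2 * y ^ 2 := by linarith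
    rw [h1]; ring
  · exact Dvd.intro_left _ rfl

/-- the automorph of the unit -/
theorem mX_aut {D : ℕ} {Q : Form} (hD : Q.D = -(D : ℤ)) {X Z : ℤ} (h : X ^ 2 - D * Z ^ 2 = 1) :
    (mX Q X Z).det = 1 ∧ Q.comp (mX Q X Z) = Q := by
  have h1 : X ^ 2 + Q.D * Z ^ 2 = 1 := by rw [hD]; linarith
  refine ⟨by rw [mX_det, h1], ?_⟩
  apply Form.ext_q
  intro v
  rw [Form.comp_q, mX_q, h1, one_mul]

/-- the automorph is the identity modulo `K` -/
theorem mX_mod {K : ℕ} {Q : Form} {X Z : ℤ} (h1 : (K : ℤ) ∣ X - 1) (h2 : (K : ℤ) ∣ Z) (u : V) :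
    ∃ w : V, (mX Q X Z).app u = u + (K : ℤ) • w := by
  obtain ⟨x, hx⟩ := h1
  obtain ⟨z, hz⟩ := h2
  refine ⟨((x - Q.b * z) * u.1 - 2 * Q.c * z * u.2, 2 * Q.a * z * u.1 + (x + Q.b * z) * u.2), ?_⟩
  have hX : X = 1 + K * x := by linarith
  unfold mX Mat.app
  rw [hX, hz]
  ext <;> simp <;> ring

end Pool.Agent.Lib.MP_a17b09_nt.CHI
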